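import Pool.Agent.Run7.h342.MD.Stm
import Pool.Agent.Helper819.Reyn

/-!
Moduli of endomorphisms: the Reynolds functional of the general linear group (piece REY).
-/

open MvPolynomial

namespace Run7.h779.MD

open Run7.h342.MD Pool.Agent.Helper819.Apolar

noncomputable section

variable {n : ℕ} {k : Type} [Field k]

/-- the big matrix of a right multiplication -/
def hatR (B : Matrix (Fin n) (Fin n) k) : Matrix (Fin n × Fin n) (Fin n × Fin n) k :=
  fun p q => if p.1 = q.1 then B q.2 p.2 else 0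

theorem lsub_hatR (B : Matrix (Fin n) (Fin n) k) : lsub (hatR B) = Rsub B := by
  unfold lsub Rsub
  congr 1
  funext p
  rw [Fintype.sum_prod_type, Finset.sum_eq_single p.1]
  · refine Finset.sum_congr rfl fun l _ => ?_
    simp [hatR]
  · intro j _ hj
    refine Finset.sum_eq_zero fun l _ => ?_
    simp [hatR, hj.symm]
  · simp

theorem hatR_transpose (B : Matrix (Fin n) (Fin n) k) :
    (hatR B).transpose = hatR B.transpose := by
  ext p q
  simp only [hatR, Matrix.transpose_apply, eq_comm]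

theorem pr_Rsub (B : Matrix (Fin n) (Fin n) k) (f g : MvPolynomial (Fin n × Fin n) k) :
    pr (Rsub B.transpose f) g = pr f (Rsub B g) := by
  rw [← lsub_hatR, ← lsub_hatR, ← hatR_transpose]
  exact pr_lsub (hatR B) f g

theorem Rsub_dt [Infinite k] (B : Matrix (Fin n) (Fin n) k) (w : ℕ) :
    Rsub B (dt n k ^ w) = C (B.det ^ w) * dt n k ^ w := by
  apply poly_ext
  intro A _
  rw [eval_Rsub, map_pow, eval_dt, map_mul, eval_C, map_pow, eval_dt, Matrix.det_mul, mul_pow,
    mul_comm]

theorem rho_Rsub [CharZero k] (w : ℕ) (B : Matrix (Fin n) (Fin n) k)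
    (p : MvPolynomial (Fin n × Fin n) k) :
    rho w (Rsub B p) = B.det ^ w * rho w p := by
  have hinf : Infinite k := inferInstance
  unfold rho
  rw [← pr_Rsub, Rsub_dt, pr_smul_left, Matrix.det_transpose, mul_div_assoc]

theorem rho_dt_pow_mul [CharZero k] (w m : ℕ) (p : MvPolynomial (Fin n × Fin n) k) :
    rho (w + m) (dt n k ^ m * p) = rho w p := by
  induction m with
  | zero => rw [pow_zero, one_mul, add_zero]
  | succ m ih => rw [← add_assoc, pow_succ', mul_assoc, rho_det_mul, ih]

/-- two representations of the same function have the same value of the functional -/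
theorem rho_rep [CharZero k] {f : GL (Fin n) k → k} {p q : MvPolynomial (Fin n × Fin n) k}
    {m l : ℕ} (hp : RepG f p m) (hq : RepG f q l) : rho m p = rho l q := by
  have hinf : Infinite k := inferInstance
  rw [← rho_dt_pow_mul m l p, ← rho_dt_pow_mul l m q, add_comm l m]
  congr 1
  apply poly_ext
  intro A hA
  have hu : IsUnit A := (Matrix.isUnit_iff_isUnit_det A).mpr (isUnit_iff_ne_zero.mpr hA)
  have h1 := hp hu.unit
  have h2 := hq hu.unit
  have h3 : ((hu.unit : GL (Fin n) k) : Matrix (Fin n) (Fin n) k) = A := rfl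
  rw [h3] at h1 h2
  have h4 : eval (Pool.Agent.Helper819.Apolar.ent A) p = f hu.unit * A.det ^ m := h1.symm
  have h5 : eval (Pool.Agent.Helper819.Apolar.ent A) q = f hu.unit * A.det ^ l := h2.symm
  rw [map_mul, map_mul, map_pow, map_pow, eval_dt, h4, h5]
  ring

open Classical in
/-- the functional -/
def rhoG (f : OG n k) : k :=
  rho (show RegG f.1 from f.2).choose_spec.choose (show RegG f.1 from f.2).choose

theorem rhoG_eq [CharZero k] {f : OG n k} {p : MvPolynomial (Fin n × Fin n) k} {m : ℕ}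
    (hp : RepG f.1 p m) : rhoG f = rho m p :=
  rho_rep (show RegG f.1 from f.2).choose_spec.choose_spec hp

theorem rhoG_one [CharZero k] : rhoG (1 : OG n k) = 1 := by
  have h : RepG (1 : OG n k).1 (1 : MvPolynomial (Fin n × Fin n) k) 0 := by
    intro g
    rw [pow_zero, mul_one, map_one]
    rfl
  rw [rhoG_eq h]
  have := rho_dt (n := n) (k := k) 0
  rwa [pow_zero] at this

theorem rhoG_add [CharZero k] (f f' : OG n k) : rhoG (f + f') = rhoG f + rhoG f' := by
  obtain ⟨p, m, hp⟩ : RegG f.1 := f.2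
  obtain ⟨q, l, hq⟩ : RegG f'.1 := f'.2
  have h : RepG (f + f').1 (dt n k ^ l * p + dt n k ^ m * q) (m + l) := by
    intro g
    have h1 := hp g
    have h2 := hq g
    have h3 : eval (Run7.h342.MD.ent (g : Matrix (Fin n) (Fin n) k)) (dt n k) =
      (g : Matrix (Fin n) (Fin n) k).det := eval_dt _
    have h4 : (f + f').1 g = f.1 g + f'.1 g := rfl
    rw [map_add, map_mul, map_mul, map_pow, map_pow, h3, ← h1, ← h2, h4, pow_add]
    ring
  rw [rhoG_eq h, rhoG_eq hp, rhoG_eq hq, rho_add, rho_dt_pow_mul, add_comm m l, rho_dt_pow_mul]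

theorem rhoG_smul [CharZero k] (a : k) (f : OG n k) : rhoG (a • f) = a * rhoG f := by
  obtain ⟨p, m, hp⟩ : RegG f.1 := f.2
  have h : RepG (a • f).1 (C a * p) m := by
    intro g
    have h4 : (a • f).1 g = a * f.1 g := rfl
    rw [map_mul, eval_C, ← hp g, h4]
    ring
  rw [rhoG_eq h, rhoG_eq hp, rho_smul]

theorem rhoG_translate [CharZero k] (g₀ : GL (Fin n) k) (f f' : OG n k)
    (h : ∀ g, f'.1 g = f.1 (g * g₀)) : rhoG f' = rhoG f := by
  obtain ⟨p, m, hp⟩ : RegG f.1 := f.2
  have hd : (g₀ : Matrix (Fin n) (Fin n) k).det ≠ 0 :=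
    ((Matrix.isUnit_iff_isUnit_det _).mp g₀.isUnit).ne_zero
  have h1 : RepG f'.1 (C (((g₀ : Matrix (Fin n) (Fin n) k).det ^ m)⁻¹) *
      Rsub (g₀ : Matrix (Fin n) (Fin n) k) p) m := by
    intro g
    have h2 := hp (g * g₀)
    have h3 : eval (Run7.h342.MD.ent (g : Matrix (Fin n) (Fin n) k))
        (Rsub (g₀ : Matrix (Fin n) (Fin n) k) p) =
        eval (Run7.h342.MD.ent ((g * g₀ : GL (Fin n) k) : Matrix (Fin n) (Fin n) k)) p :=
      eval_Rsub _ _ _
    have h4 : ((g * g₀ : GL (Fin n) k) : Matrix (Fin n) (Fin n) k).det =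
        (g : Matrix (Fin n) (Fin n) k).det * (g₀ : Matrix (Fin n) (Fin n) k).det := by
      rw [Units.val_mul, Matrix.det_mul]
    rw [map_mul, eval_C, h3, ← h2, h4, h g, mul_pow]
    field_simp
  rw [rhoG_eq h1, rhoG_eq hp, rho_smul, rho_Rsub, ← mul_assoc, inv_mul_cancel₀ (pow_ne_zero _ hd),
    one_mul]

/-- Piece REY. -/
theorem t_REY (n : ℕ) (k : Type) [Field k] [CharZero k] : S_REY n k :=
  ⟨{ toFun := rhoG
     map_add' := rhoG_add
     map_smul' := rhoG_smul }, rhoG_one, rhoG_translate⟩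

end

end Run7.h779.MD
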