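import Pool.Agent.Run7.h342.MD.Stm

/-!
Moduli of endomorphisms: the coordinates of degenerate vectors besides one are algebraically
independent (piece INCA).
-/

open MvPolynomial
open scoped Polynomial

namespace Run7.h779.MD

open Run7.h342.MD

noncomputable section

variable {n d : ℕ}

section ring

variable {R : Type} [CommRing R]

/-- The vector `b`, changed at the coordinates of the monomial `s₀` such that `t` is a zero. -/
def Psi (s₀ : Sym (Fin n) d) (b : Ix n d → R) (t : Fin n → R) : Ix n d → R :=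
  fun q => if q.2 = s₀ then b q - ev b t q.1 else b q

theorem Psi_apply (s₀ : Sym (Fin n) d) (b : Ix n d → R) (t : Fin n → R) (q : Ix n d) :
    Psi s₀ b t q = b q + if q.2 = s₀ then -ev b t q.1 else 0 := by
  unfold Psi
  split_ifs
  · rw [sub_eq_add_neg]
  · rw [add_zero]

theorem prod_s₀ {i₀ : Fin n} {s₀ : Sym (Fin n) d}
    (hs : (s₀ : Multiset (Fin n)) = Multiset.replicate d i₀) (t : Fin n → R) (ht : t i₀ = 1) :
    ((s₀ : Multiset (Fin n)).map t).prod = 1 := by
  rw [hs, Multiset.map_replicate, Multiset.prod_replicate, ht, one_pow]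

theorem ev_Psi {i₀ : Fin n} {s₀ : Sym (Fin n) d}
    (hs : (s₀ : Multiset (Fin n)) = Multiset.replicate d i₀) (b : Ix n d → R) (t : Fin n → R)
    (ht : t i₀ = 1) : ev (Psi s₀ b t) t = 0 := by
  funext i
  have h1 := prod_s₀ hs t ht
  have h2 : ev (Psi s₀ b t) t i = ∑ s : Sym (Fin n) d,
      (b (i, s) * ((s : Multiset (Fin n)).map t).prod +
        if s = s₀ then -ev b t i * ((s : Multiset (Fin n)).map t).prod else 0) := by
    change ∑ s : Sym (Fin n) d, Psi s₀ b t (i, s) * ((s : Multiset (Fin n)).map t).prod = _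
    refine Finset.sum_congr rfl fun s _ => ?_
    rw [Psi_apply, add_mul]
    simp only [ite_mul, zero_mul]
  rw [h2, Finset.sum_add_distrib, Finset.sum_ite_eq' Finset.univ s₀]
  simp only [Finset.mem_univ, if_true]
  rw [h1, mul_one]
  change ev b t i + -ev b t i = 0
  ring

theorem map_ev {S : Type} [CommRing S] (φ : R →+* S) (b : Ix n d → R) (t : Fin n → R)
    (i : Fin n) : φ (ev b t i) = ev (fun q => φ (b q)) (fun l => φ (t l)) i := by
  unfold ev
  rw [map_sum]
  refine Finset.sum_congr rfl fun s _ => ?_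
  rw [map_mul, map_multiset_prod, Multiset.map_map]
  rfl

theorem map_Psi {S : Type} [CommRing S] (φ : R →+* S) (s₀ : Sym (Fin n) d) (b : Ix n d → R)
    (t : Fin n → R) (q : Ix n d) :
    φ (Psi s₀ b t q) = Psi s₀ (fun q => φ (b q)) (fun l => φ (t l)) q := by
  rw [Psi_apply, Psi_apply, map_add]
  split_ifs
  · rw [map_neg, map_ev]
  · rw [map_zero]

theorem Psi_add_smul (s₀ : Sym (Fin n) d) (b b' : Ix n d → R) (a : R) (t : Fin n → R)
    (q : Ix n d) : Psi s₀ (b + a • b') t q = Psi s₀ b t q + a * Psi s₀ b' t q := by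
  rw [Psi_apply, Psi_apply, Psi_apply, ev_add, ev_smul]
  simp only [Pi.add_apply, Pi.smul_apply, smul_eq_mul]
  split_ifs <;> ring

variable (d R) in
/-- the vector with the coefficients 1 at `x₀ ^ (d - 1) x_i` -/
def B0 (i₀ : Fin n) : Ix n d → R := fun q =>
  if q.1 ≠ i₀ ∧ (q.2 : Multiset (Fin n)) = q.1 ::ₘ Multiset.replicate (d - 1) i₀ then 1 else 0

theorem map_B0 {S : Type} [CommRing S] (φ : R →+* S) (i₀ : Fin n) :
    (fun q => φ (B0 d R i₀ q)) = B0 d S i₀ := by
  funext q
  unfold B0
  split_ifs
  · rw [map_one]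
  · rw [map_zero]

theorem ev_B0 (hd : 1 ≤ d) {i₀ i : Fin n} (hi : i ≠ i₀) (t : Fin n → R) :
    ev (B0 d R i₀) t i = t i * t i₀ ^ (d - 1) := by
  have hc : Multiset.card (i ::ₘ Multiset.replicate (d - 1) i₀) = d := by
    rw [Multiset.card_cons, Multiset.card_replicate]
    omega
  set s₁ : Sym (Fin n) d := ⟨i ::ₘ Multiset.replicate (d - 1) i₀, hc⟩ with hs₁
  have h0 : (s₁ : Multiset (Fin n)) = i ::ₘ Multiset.replicate (d - 1) i₀ := rfl
  unfold ev
  rw [Finset.sum_eq_single s₁]
  · unfold B0
    rw [if_pos ⟨hi, h0⟩, one_mul, h0, Multiset.map_cons, Multiset.prod_cons,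
      Multiset.map_replicate, Multiset.prod_replicate]
  · intro s _ hs
    unfold B0
    rw [if_neg, zero_mul]
    rintro ⟨-, h⟩
    exact hs (Sym.ext (h.trans h0.symm))
  · intro h
    exact absurd (Finset.mem_univ _) h

end ring

section field

variable {k : Type} [Field k]

/-- chain rule -/
theorem deriv_aeval {σ : Type} [Fintype σ] (P : MvPolynomial σ k) (f : σ → k[X]) :
    Polynomial.derivative (aeval f P) =
      ∑ q, aeval f (pderiv q P) * Polynomial.derivative (f q) := by
  classical
  induction P using MvPolynomial.induction_on with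
  | C a =>
    rw [Finset.sum_eq_zero]
    · rw [aeval_C]
      exact Polynomial.derivative_C
    · intro q _
      rw [pderiv_C, map_zero, zero_mul]
  | add P Q hP hQ =>
    rw [map_add, map_add, hP, hQ, ← Finset.sum_add_distrib]
    refine Finset.sum_congr rfl fun q _ => ?_
    rw [map_add, map_add, add_mul]
  | mul_X P i hP =>
    rw [map_mul, Polynomial.derivative_mul, hP, aeval_X, Finset.sum_mul]
    have h1 : ∀ q, aeval f (pderiv q (P * X i)) * Polynomial.derivative (f q) =
        aeval f (pderiv q P) * Polynomial.derivative (f q) * f i +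
          if q = i then aeval f P * Polynomial.derivative (f q) else 0 := by
      intro q
      rw [Derivation.leibniz, smul_eq_mul, smul_eq_mul, map_add, map_mul, map_mul, aeval_X,
        pderiv_X]
      by_cases h : q = i
      · subst h
        rw [if_pos rfl, Pi.single_eq_same, map_one]
        ring
      · rw [if_neg h, Pi.single_eq_of_ne (Ne.symm h), map_zero]
        ring
    rw [Finset.sum_congr rfl fun q _ => h1 q, Finset.sum_add_distrib,
      Finset.sum_ite_eq' Finset.univ i]
    simp only [Finset.mem_univ, if_true]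

/-- the line through `t` in direction `j` -/
def Tl (t : Fin n → k) (j : Fin n) : Fin n → k[X] := fun l =>
  Polynomial.C (t l) + if l = j then Polynomial.X else 0

/-- the matrix of derivatives -/
def Mm (b : Ix n d → k) (t : Fin n → k) (i j : Fin n) : k :=
  -(Polynomial.derivative (ev (fun q => Polynomial.C (b q)) (Tl t j) i)).eval 0

theorem Mm_add_smul (b b' : Ix n d → k) (a : k) (t : Fin n → k) (i j : Fin n) :
    Mm (b + a • b') t i j = Mm b t i j + a * Mm b' t i j := by
  unfold Mm
  have h1 : (fun q => Polynomial.C ((b + a • b') q)) =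
      (fun q => Polynomial.C (b q)) + Polynomial.C a • fun q => Polynomial.C (b' q) := by
    funext q
    simp only [Pi.add_apply, Pi.smul_apply, smul_eq_mul, map_add, map_mul]
  rw [h1, ev_add, ev_smul]
  simp only [Pi.add_apply, Pi.smul_apply, smul_eq_mul, Polynomial.derivative_add,
    Polynomial.derivative_C_mul, Polynomial.eval_add, Polynomial.eval_C_mul]
  ring

theorem Mm_B0 (hd : 1 ≤ d) {i₀ i j : Fin n} (hi : i ≠ i₀) (hj : j ≠ i₀) (t : Fin n → k)
    (ht : t i₀ = 1) : Mm (B0 d k i₀) t i j = if i = j then -1 else 0 := by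
  unfold Mm
  rw [map_B0 (Polynomial.C : k →+* k[X]) i₀, ev_B0 hd hi]
  have h1 : Tl t j i₀ = 1 := by
    unfold Tl
    rw [if_neg (Ne.symm hj), ht, map_one, add_zero]
  rw [h1, one_pow, mul_one]
  unfold Tl
  split_ifs
  · simp
  · simp

/-- the vanishing property -/
def Van (i₀ : Fin n) (s₀ : Sym (Fin n) d) (Q : MvPolynomial (Ix n d) k) : Prop :=
  ∀ (b : Ix n d → k) (t : Fin n → k), t i₀ = 1 → eval (Psi s₀ b t) Q = 0

/-- the coordinate does not occur -/
def Free (i₀ : Fin n) (s₀ : Sym (Fin n) d) (Q : MvPolynomial (Ix n d) k) : Prop :=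
  ∀ m : Ix n d →₀ ℕ, m (i₀, s₀) ≠ 0 → coeff m Q = 0

theorem Free.pderiv_eq {i₀ : Fin n} {s₀ : Sym (Fin n) d} {Q : MvPolynomial (Ix n d) k}
    (h : Free i₀ s₀ Q) : pderiv (i₀, s₀) Q = 0 := by
  ext m
  rw [coeff_pderiv, h, coeff_zero, zero_mul]
  simp

theorem Free.pderiv {i₀ : Fin n} {s₀ : Sym (Fin n) d} {Q : MvPolynomial (Ix n d) k}
    (h : Free i₀ s₀ Q) (q : Ix n d) : Free i₀ s₀ (pderiv q Q) := by
  intro m hm
  rw [coeff_pderiv, h, zero_mul]
  rw [Finsupp.add_apply]
  omega

theorem lemA [Infinite k] {i₀ : Fin n} {s₀ : Sym (Fin n) d} {Q : MvPolynomial (Ix n d) k}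
    (hV : Van i₀ s₀ Q) (b : Ix n d → k) (t : Fin n → k) (ht : t i₀ = 1) {j : Fin n}
    (hj : j ≠ i₀) :
    ∑ i, eval (Psi s₀ b t) (pderiv (i, s₀) Q) * Mm b t i j = 0 := by
  classical
  set f : Ix n d → k[X] := Psi s₀ (fun q => Polynomial.C (b q)) (Tl t j) with hf
  have h1 : ∀ (ε : k) (P : MvPolynomial (Ix n d) k), (aeval f P).eval ε =
      eval (Psi s₀ b (fun l => t l + if l = j then ε else 0)) P := by
    intro ε P
    have h2 : ∀ q, (f q).eval ε = Psi s₀ b (fun l => t l + if l = j then ε else 0) q := by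
      intro q
      have h3 := map_Psi (Polynomial.evalRingHom ε) s₀ (fun q => Polynomial.C (b q)) (Tl t j) q
      rw [Polynomial.coe_evalRingHom] at h3
      rw [hf, h3]
      congr 1
      · funext q
        rw [Polynomial.eval_C]
      · funext l
        unfold Tl
        rw [Polynomial.eval_add, Polynomial.eval_C]
        split_ifs
        · rw [Polynomial.eval_X]
        · rw [Polynomial.eval_zero]
    induction P using MvPolynomial.induction_on with
    | C a => rw [aeval_C, eval_C]; exact Polynomial.eval_C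
    | add P Q hP hQ => rw [map_add, map_add, Polynomial.eval_add, hP, hQ]
    | mul_X P i hP => rw [map_mul, map_mul, Polynomial.eval_mul, hP, aeval_X, eval_X, h2]
  have h2 : aeval f Q = 0 := by
    apply Polynomial.funext
    intro ε
    rw [h1, Polynomial.eval_zero]
    apply hV
    rw [if_neg (Ne.symm hj), add_zero, ht]
  have h3 := deriv_aeval Q f
  rw [h2, Polynomial.derivative_zero] at h3
  have h4 := congrArg (Polynomial.eval 0) h3
  rw [Polynomial.eval_zero, Polynomial.eval_finsetSum, Fintype.sum_prod_type] at h4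
  rw [h4]
  refine Finset.sum_congr rfl fun i _ => ?_
  rw [Finset.sum_eq_single s₀]
  · rw [Polynomial.eval_mul, h1]
    have h5 : (fun l => t l + if l = j then (0 : k) else 0) = t := by
      funext l
      simp
    rw [h5]
    congr 1
    rw [hf]
    unfold Psi Mm
    rw [if_pos rfl, Polynomial.derivative_sub, Polynomial.derivative_C, zero_sub,
      Polynomial.eval_neg]
  · intro s _ hs
    rw [hf]
    unfold Psi
    rw [if_neg hs, Polynomial.derivative_C, mul_zero, Polynomial.eval_zero]
  · intro h
    exact absurd (Finset.mem_univ _) h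

theorem lemB [Infinite k] (hd : 1 ≤ d) {i₀ : Fin n} {s₀ : Sym (Fin n) d}
    {Q : MvPolynomial (Ix n d) k} (hV : Van i₀ s₀ Q) (hF : Free i₀ s₀ Q) (i : Fin n) :
    Van i₀ s₀ (pderiv (i, s₀) Q) := by
  classical
  intro b t ht
  set f : Ix n d → k[X] := fun q => Polynomial.C (Psi s₀ b t q) +
    Polynomial.X * Polynomial.C (Psi s₀ (B0 d k i₀) t q) with hf
  have h1 : ∀ (ε : k) (P : MvPolynomial (Ix n d) k), (aeval f P).eval ε =
      eval (Psi s₀ (b + ε • B0 d k i₀) t) P := by
    intro ε P
    induction P using MvPolynomial.induction_on with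
    | C a => rw [aeval_C, eval_C]; exact Polynomial.eval_C
    | add P Q hP hQ => rw [map_add, map_add, Polynomial.eval_add, hP, hQ]
    | mul_X P i hP =>
      rw [map_mul, map_mul, Polynomial.eval_mul, hP, aeval_X, eval_X, Psi_add_smul, hf]
      simp only [Polynomial.eval_add, Polynomial.eval_C, Polynomial.eval_mul, Polynomial.eval_X]
  set P : Fin n → k[X] := fun i => aeval f (pderiv (i, s₀) Q) with hP
  have hP0 : P i₀ = 0 := by
    rw [hP]
    simp only []
    rw [hF.pderiv_eq, map_zero]
  have h2 : ∀ j, j ≠ i₀ → Polynomial.X * P j = ∑ i, P i * Polynomial.C (Mm b t i j) := by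
    intro j hj
    apply Polynomial.funext
    intro ε
    have h3 := lemA hV (b + ε • B0 d k i₀) t ht hj
    have h4 : ∀ i, eval (Psi s₀ (b + ε • B0 d k i₀) t) (pderiv (i, s₀) Q) *
        Mm (b + ε • B0 d k i₀) t i j = (P i).eval ε * Mm b t i j -
          if i = j then ε * (P i).eval ε else 0 := by
      intro i
      rw [← h1, Mm_add_smul]
      by_cases hi : i = i₀
      · have h5 : (aeval f (pderiv (i, s₀) Q)) = 0 := by
          rw [hi]
          exact hP0
        have h6 : P i = 0 := h5
        rw [h5, h6, if_neg (by rw [hi]; exact Ne.symm hj)]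
        simp
      · rw [Mm_B0 hd hi hj t ht]
        change (P i).eval ε * _ = _
        split_ifs <;> ring
    rw [Finset.sum_congr rfl fun i _ => h4 i, Finset.sum_sub_distrib,
      Finset.sum_ite_eq' Finset.univ j] at h3
    simp only [Finset.mem_univ, if_true] at h3
    rw [Polynomial.eval_mul, Polynomial.eval_X, Polynomial.eval_finsetSum]
    simp only [Polynomial.eval_mul, Polynomial.eval_C]
    exact (sub_eq_zero.mp h3).symm
  have h3 : ∀ (r m : ℕ), (∀ i, (P i).natDegree < m + r) → ∀ j, (P j).coeff m = 0 := by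
    intro r
    induction r with
    | zero =>
      intro m hm j
      exact Polynomial.coeff_eq_zero_of_natDegree_lt (by simpa using hm j)
    | succ r ih =>
      intro m hm j
      by_cases hj : j = i₀
      · rw [hj, hP0, Polynomial.coeff_zero]
      · have h4 : (Polynomial.X * P j).coeff (m + 1) =
            (∑ i, P i * Polynomial.C (Mm b t i j)).coeff (m + 1) := by
          rw [h2 j hj]
        rw [Polynomial.coeff_X_mul, Polynomial.finsetSum_coeff] at h4
        rw [h4]
        refine Finset.sum_eq_zero fun i _ => ?_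
        rw [Polynomial.coeff_mul_C, ih (m + 1) (fun i => by have := hm i; omega) i, zero_mul]
  have h4 : ∀ j, P j = 0 := by
    intro j
    ext m
    rw [Polynomial.coeff_zero]
    refine h3 ((∑ i, (P i).natDegree) + 1) m (fun i => ?_) j
    have h5 : (P i).natDegree ≤ ∑ i, (P i).natDegree :=
      Finset.single_le_sum (f := fun i => (P i).natDegree) (fun _ _ => Nat.zero_le _)
        (Finset.mem_univ i)
    omega
  have h5 := h1 0 (pderiv (i, s₀) Q)
  have h6 : aeval f (pderiv (i, s₀) Q) = 0 := h4 i
  rw [h6, Polynomial.eval_zero, zero_smul, add_zero] at h5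
  exact h5.symm

theorem degree_pderiv {σ : Type} {q : σ} {Q : MvPolynomial σ k} (h : pderiv q Q ≠ 0) :
    (pderiv q Q).totalDegree < Q.totalDegree := by
  classical
  have h1 : ∀ m ∈ (pderiv q Q).support, (m.sum fun _ e => e) + 1 ≤ Q.totalDegree := by
    intro m hm
    have h2 : coeff (m + Finsupp.single q 1) Q ≠ 0 := by
      intro h3
      rw [mem_support_iff, coeff_pderiv, h3, zero_mul] at hm
      exact hm rfl
    have h3 := le_totalDegree (mem_support_iff.mpr h2)
    rw [Finsupp.sum_add_index' (fun _ => rfl) (fun _ _ _ => rfl), Finsupp.sum_single_index rfl]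
      at h3
    exact h3
  obtain ⟨m₀, hm₀⟩ : (pderiv q Q).support.Nonempty := by
    rw [Finset.nonempty_iff_ne_empty]
    intro h2
    exact h (support_eq_empty.mp h2)
  have h2 := h1 m₀ hm₀
  have h3 : (pderiv q Q).totalDegree ≤ Q.totalDegree - 1 := by
    unfold totalDegree
    refine Finset.sup_le fun m hm => ?_
    have := h1 m hm
    unfold totalDegree at this
    omega
  omega

theorem main [CharZero k] (hd : 1 ≤ d) {i₀ : Fin n} {s₀ : Sym (Fin n) d} (N : ℕ) :
    ∀ Q : MvPolynomial (Ix n d) k, Q.totalDegree < N → Van i₀ s₀ Q → Free i₀ s₀ Q → Q = 0 := by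
  classical
  have hinf : Infinite k := inferInstance
  induction N with
  | zero => intro Q h; omega
  | succ N ih =>
    intro Q hQ hV hF
    have h1 : ∀ i, pderiv (i, s₀) Q = 0 := by
      intro i
      by_contra h
      exact h (ih _ (by have := degree_pderiv h; omega) (lemB hd hV hF i) (hF.pderiv _))
    have h2 : ∀ i, (i, s₀) ∉ Q.vars := by
      intro i hi
      rw [mem_vars_iff_mem_support] at hi
      obtain ⟨m, hm, hmi⟩ := hi
      have h3 := congrArg (coeff (m - Finsupp.single (i, s₀) 1)) (h1 i)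
      rw [coeff_pderiv, coeff_zero] at h3
      have h4 : m - Finsupp.single (i, s₀) 1 + Finsupp.single (i, s₀) 1 = m := by
        refine tsub_add_cancel_of_le ?_
        rw [Finsupp.single_le_iff]
        exact Nat.one_le_iff_ne_zero.mpr (Finsupp.mem_support_iff.mp hmi)
      rw [h4] at h3
      rcases mul_eq_zero.mp h3 with h5 | h5
      · exact mem_support_iff.mp hm h5
      · exact (Nat.cast_add_one_ne_zero _) h5
    apply MvPolynomial.funext
    intro b
    rw [map_zero]
    have h3 := hV b (Pi.single i₀ 1) (Pi.single_eq_same _ _)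
    rw [← h3]
    refine eval₂Hom_congr' rfl (fun q hq _ => ?_) rfl
    unfold Psi
    rw [if_neg]
    intro h4
    apply h2 q.1
    rw [← h4]
    exact hq

end field

/-- Piece INCA. -/
theorem t_INCA_gen {n d : ℕ} {k : Type} [Field k] [CharZero k] (hd : 1 ≤ d) : S_INCA n d k := by
  intro i₀ s₀ hs Q hQ hv
  refine main hd (i₀ := i₀) (s₀ := s₀) (Q.totalDegree + 1) Q (Nat.lt_succ_self _) ?_ ?_
  · intro b t ht
    apply hv
    intro h
    have h1 := h t (ev_Psi hs b t ht)
    rw [h1] at ht
    exact zero_ne_one ht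
  · intro m hm
    by_contra h
    apply hQ
    rw [mem_vars_iff_mem_support]
    exact ⟨m, mem_support_iff.mpr h, Finsupp.mem_support_iff.mpr hm⟩

/-- Piece INCA, in the form of the list. -/
theorem t_INCA (n d : ℕ) (k : Type) [Field k] [IsAlgClosed k] [CharZero k] (_hn : 3 ≤ n)
    (hd : 2 ≤ d) : S_INCA n d k :=
  t_INCA_gen (le_trans one_le_two hd)

end

end Run7.h779.MD
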